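import Mathlib

namespace Pool.Agent.H.MP_510a26_co

/-- Every symbol occurs exactly once in each row and in each column. -/
def Latin {α : Type} (L : α → α → α) : Prop :=
  (∀ r, Function.Bijective (fun c => L r c)) ∧ ∀ c, Function.Bijective (fun r => L r c)

/-- The ordered pairs of entries are pairwise distinct. -/
def Orth {α : Type} (L M : α → α → α) : Prop :=
  Function.Injective (fun p : α × α => (L p.1 p.2, M p.1 p.2))

/-- Each cell `(r, c)` lies in exactly `h` intercalates (counted by the opposite corner). -/
def Homog {α : Type} (h : ℕ) (L : α → α → α) : Prop :=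
  ∀ r c, {p : α × α | p.1 ≠ r ∧ p.2 ≠ c ∧ L r c = L p.1 p.2 ∧ L r p.2 = L p.1 c}.ncard = h

end Pool.Agent.H.MP_510a26_co
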