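import Mathlib
import Pool.Agent.H.MP_510a26_co.Defs

namespace Pool.Agent.H.MP_510a26_co

def S {α : Type} (L : α → α → α) (r c : α) : Set (α × α) :=
  {p | L r c = L p.1 p.2 ∧ L r p.2 = L p.1 c}

def Cnt {α : Type} (k : ℕ) (L : α → α → α) : Prop := ∀ r c, (S L r c).ncard = k

lemma homog_of_cnt {α : Type} [Finite α] {L : α → α → α} (hL : Latin L) {h : ℕ}
    (hc : Cnt (h + 1) L) : Homog h L := by
  intro r c
  have h1 := hc r c
  have h2 : S L r c = insert (r, c)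
      {p : α × α | p.1 ≠ r ∧ p.2 ≠ c ∧ L r c = L p.1 p.2 ∧ L r p.2 = L p.1 c} := by
    ext ⟨a, b⟩
    simp only [S, Set.mem_insert_iff, Set.mem_ofPred_eq, Prod.mk.injEq]
    constructor
    · rintro ⟨e1, e2⟩
      by_cases ha : a = r
      · subst ha
        exact Or.inl ⟨rfl, ((hL.1 a).1 e1).symm⟩
      · refine Or.inr ⟨ha, fun hb => ha ?_, e1, e2⟩
        subst hb
        exact ((hL.2 b).1 e1).symm
    · rintro (⟨rfl, rfl⟩ | ⟨_, _, e1, e2⟩)
      · exact ⟨rfl, rfl⟩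
      · exact ⟨e1, e2⟩
  rw [h2, Set.ncard_insert_of_notMem (by simp)] at h1
  omega

/-- Isotopic copy. -/
lemma cnt_iso {α β : Type} {L : α → α → α} {k : ℕ} (hc : Cnt k L) (e1 e2 e3 : β ≃ α) :
    Cnt k (fun r c => e3.symm (L (e1 r) (e2 c))) := by
  intro r c
  rw [← hc (e1 r) (e2 c)]
  apply Set.ncard_congr (fun p _ => (e1 p.1, e2 p.2))
  · intro p hp
    simpa [S] using hp
  · intro p q _ _ h
    simp only [Prod.mk.injEq, EmbeddingLike.apply_eq_iff_eq] at h
    exact Prod.ext h.1 h.2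
  · intro p hp
    refine ⟨(e1.symm p.1, e2.symm p.2), ?_, by simp⟩
    simpa [S] using hp

lemma latin_iso {α β : Type} {L : α → α → α} (hL : Latin L) (e1 e2 e3 : β ≃ α) :
    Latin (fun r c => e3.symm (L (e1 r) (e2 c))) :=
  ⟨fun r => e3.symm.bijective.comp ((hL.1 (e1 r)).comp e2.bijective),
   fun c => e3.symm.bijective.comp ((hL.2 (e2 c)).comp e1.bijective)⟩

def prodSq {α β : Type} (L : α → α → α) (M : β → β → β) (r c : α × β) : α × β :=
  (L r.1 c.1, M r.2 c.2)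

lemma latin_prod {α β : Type} {L : α → α → α} {M : β → β → β} (hL : Latin L) (hM : Latin M) :
    Latin (prodSq L M) :=
  ⟨fun r => (hL.1 r.1).prodMap (hM.1 r.2), fun c => (hL.2 c.1).prodMap (hM.2 c.2)⟩

lemma cnt_prod {α β : Type} {L : α → α → α} {M : β → β → β} {k l : ℕ} (hL : Cnt k L)
    (hM : Cnt l M) : Cnt (k * l) (prodSq L M) := by
  intro r c
  rw [← hL r.1 c.1, ← hM r.2 c.2, ← Set.ncard_prod]
  apply Set.ncard_congr (fun p _ => ((p.1.1, p.2.1), (p.1.2, p.2.2)))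
  · intro p hp
    simp only [S, prodSq, Set.mem_ofPred_eq, Prod.mk.injEq, Set.mem_prod] at hp ⊢
    tauto
  · intro p q _ _ h
    simp only [Prod.mk.injEq] at h
    exact Prod.ext (Prod.ext h.1.1 h.2.1) (Prod.ext h.1.2 h.2.2)
  · intro p hp
    refine ⟨((p.1.1, p.2.1), (p.1.2, p.2.2)), ?_, rfl⟩
    simp only [S, prodSq, Set.mem_ofPred_eq, Prod.mk.injEq, Set.mem_prod] at hp ⊢
    tauto

def Good (α : Type) (k : ℕ) : Prop :=
  ∃ L M : α → α → α, Latin L ∧ Latin M ∧ Orth L M ∧ Cnt k L ∧ Cnt k M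

lemma good_prod {α β : Type} {k l : ℕ} (h1 : Good α k) (h2 : Good β l) :
    Good (α × β) (k * l) := by
  obtain ⟨L, M, a1, a2, a3, a4, a5⟩ := h1
  obtain ⟨L', M', b1, b2, b3, b4, b5⟩ := h2
  refine ⟨prodSq L L', prodSq M M', latin_prod a1 b1, latin_prod a2 b2, ?_, cnt_prod a4 b4,
    cnt_prod a5 b5⟩
  intro p q h
  simp only [prodSq, Prod.mk.injEq] at h
  have e1 := @a3 (p.1.1, p.2.1) (q.1.1, q.2.1) (Prod.ext h.1.1 h.2.1)
  have e2 := @b3 (p.1.2, p.2.2) (q.1.2, q.2.2) (Prod.ext h.1.2 h.2.2)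
  simp only [Prod.mk.injEq] at e1 e2
  exact Prod.ext (Prod.ext e1.1 e2.1) (Prod.ext e1.2 e2.2)

lemma good_iso {α β : Type} {k : ℕ} (h : Good α k) (e : β ≃ α) : Good β k := by
  obtain ⟨L, M, a1, a2, a3, a4, a5⟩ := h
  refine ⟨_, _, latin_iso a1 e e e, latin_iso a2 e e e, ?_, cnt_iso a4 e e e, cnt_iso a5 e e e⟩
  intro p q h
  simp only [Prod.mk.injEq, EmbeddingLike.apply_eq_iff_eq] at h
  have e1 := @a3 (e p.1, e p.2) (e q.1, e q.2) (Prod.ext h.1 h.2)
  simp only [Prod.mk.injEq, EmbeddingLike.apply_eq_iff_eq] at e1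
  exact Prod.ext e1.1 e1.2

abbrev V := ZMod 2 × ZMod 2

def sq {R : Type} [CommRing R] (b g : V → R) (r c : V × R) : V × R :=
  (r.1 + c.1, r.2 + b r.1 * c.2 + g c.1)

lemma latin_sq {R : Type} [CommRing R] [Finite R] (b g : V → R) (hb : ∀ i, IsUnit (b i)) :
    Latin (sq b g) := by
  refine ⟨fun r => Finite.injective_iff_bijective.1 ?_, fun c => Finite.injective_iff_bijective.1 ?_⟩
  · rintro ⟨j, y⟩ ⟨j', y'⟩ h
    simp only [sq, Prod.mk.injEq, add_right_inj] at h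
    obtain ⟨rfl, h⟩ := h
    simp only [add_left_inj, add_right_inj] at h
    rw [(hb r.1).mul_right_inj] at h
    rw [h]
  · rintro ⟨j, y⟩ ⟨j', y'⟩ h
    simp only [sq, Prod.mk.injEq, add_left_inj] at h
    obtain ⟨rfl, h⟩ := h
    simp only [add_left_inj] at h
    rw [h]

lemma vv (d : V) : d + d = 0 := by revert d; decide

lemma cnt_sq {R : Type} [CommRing R] [Fintype R] [DecidableEq R] (b g : V → R) (k : ℕ)
    (h : ∀ (i j : V) (y : R), ∑ d : V, (Finset.univ.filter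
      (fun z : R => (b i + b (i + d)) * (y - z) = 2 * (g (j + d) - g j))).card = k) :
    Cnt k (sq b g) := by
  rintro ⟨i, x⟩ ⟨j, y⟩
  have h1 : {q : V × R | (b i + b (i + q.1)) * (y - q.2) = 2 * (g (j + q.1) - g j)}.ncard = k := by
    rw [← h i j y, Set.ncard_eq_toFinset_card', Set.toFinset_ofPred, Finset.card_filter,
      Fintype.sum_prod_type]
    simp only [Finset.card_filter]
  rw [← h1]
  symm
  apply Set.ncard_congr (fun q _ => ((i + q.1, x + b i * y + g j - b (i + q.1) * q.2 - g (j + q.1)),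
    (j + q.1, q.2)))
  · rintro ⟨d, z⟩ hq
    simp only [S, sq, Set.mem_ofPred_eq, Prod.mk.injEq] at hq ⊢
    refine ⟨⟨?_, by ring⟩, by abel, by linear_combination -hq⟩
    have := vv d
    linear_combination (exp := 1) -this
  · intro p q _ _ h
    simp only [Prod.mk.injEq, add_right_inj] at h
    exact Prod.ext h.1.1 h.2.2
  · rintro ⟨⟨i', x'⟩, ⟨j', y'⟩⟩ hp
    simp only [S, sq, Set.mem_ofPred_eq, Prod.mk.injEq] at hp
    obtain ⟨⟨e1, e2⟩, e3, e4⟩ := hp
    have f1 : i + (i' - i) = i' := by abel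
    have f2 : j + (i' - i) = j' := by linear_combination (exp := 1) -e3
    refine ⟨(i' - i, y'), ?_, ?_⟩
    · simp only [Set.mem_ofPred_eq, f1, f2]
      linear_combination e2 - e4
    · simp only [f1, f2, Prod.mk.injEq, true_and, and_true]
      linear_combination e2

def om : V ≃ V where
  toFun a := (a.2, a.1 + a.2)
  invFun a := (a.1 + a.2, a.1)
  left_inv := by decide
  right_inv := by decide

lemma good_sq {R : Type} [CommRing R] [Fintype R] [DecidableEq R] (b g : V → R) (k : ℕ)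
    (hb : ∀ i, IsUnit (2 * b i))
    (h : ∀ (i j : V) (y : R), ∑ d : V, (Finset.univ.filter
      (fun z : R => (b i + b (i + d)) * (y - z) = 2 * (g (j + d) - g j))).card = k) :
    Good (V × R) k := by
  have hl := latin_sq b g (fun i => isUnit_of_mul_isUnit_right (hb i))
  have hc := cnt_sq b g k h
  refine ⟨sq b g, _, hl, latin_iso hl (Equiv.refl _) (om.prodCongr (Equiv.neg R)) (Equiv.refl _),
    ?_, hc, cnt_iso hc (Equiv.refl _) (om.prodCongr (Equiv.neg R)) (Equiv.refl _)⟩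
  rintro ⟨⟨i, x⟩, ⟨j, y⟩⟩ ⟨⟨i', x'⟩, ⟨j', y'⟩⟩ h
  simp only [sq, Prod.mk.injEq, Equiv.refl_symm, Equiv.refl_apply, Equiv.prodCongr_apply,
    Prod.map, Equiv.neg_apply] at h
  obtain ⟨⟨e1, e2⟩, e3, e4⟩ := h
  have key : ∀ i j i' j' : V, i + j = i' + j' → i + om j = i' + om j' → i = i' ∧ j = j' := by
    decide
  obtain ⟨rfl, rfl⟩ := key i j i' j' e1 e3
  have hy : y = y' := by
    rw [← (hb i).mul_right_inj]
    linear_combination e2 - e4
  subst hy
  have hx : x = x' := by linear_combination e2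
  rw [hx]

end Pool.Agent.H.MP_510a26_co
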