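import Mathlib
import Pool.Agent.H.MP_510a26_co.Basic

namespace Pool.Agent.H.MP_510a26_co

lemma good_one : Good Unit 1 := by
  have hl : Latin (fun _ _ : Unit => ()) :=
    ⟨fun _ => ⟨fun _ _ _ => rfl, fun _ => ⟨(), rfl⟩⟩, fun _ => ⟨fun _ _ _ => rfl, fun _ => ⟨(), rfl⟩⟩⟩
  have hc : Cnt 1 (fun _ _ : Unit => ()) := by
    intro r c
    have : S (fun _ _ : Unit => ()) r c = {((), ())} := by
      ext p; simp [S]
    rw [this, Set.ncard_singleton]
  exact ⟨_, _, hl, hl, fun _ _ _ => Subsingleton.elim _ _, hc, hc⟩

lemma good_two : Good (V × ZMod 3) 2 := by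
  apply good_sq (fun i => if i.1 = 0 then 1 else -1) (fun j => if j.1 = 0 then 0 else 1)
  · intro i
    by_cases h : i.1 = 0
    · simp only [h, if_true]; exact IsUnit.of_mul_eq_one 2 (by decide)
    · simp only [h, if_false]; exact IsUnit.of_mul_eq_one 1 (by decide)
  · decide +kernel

lemma good_three : Good (V × ZMod 5) 3 := by
  apply good_sq (fun i => (if i.1 = 0 then 1 else -1) * (if i.2 = 0 then 1 else 2))
    (fun j => if j.1 = 0 then 0 else 1)
  · intro i
    have : ∀ i : V, ∃ u : ZMod 5,
        2 * ((if i.1 = 0 then 1 else -1) * (if i.2 = 0 then 1 else 2)) * u = 1 := by decide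
    obtain ⟨u, hu⟩ := this i
    exact IsUnit.of_mul_eq_one u hu
  · decide +kernel

lemma count_unit {R : Type} [CommRing R] [Fintype R] [DecidableEq R] {a : R} (ha : IsUnit a)
    (y k : R) : (Finset.univ.filter (fun z : R => a * (y - z) = k)).card = 1 := by
  obtain ⟨u, rfl⟩ := ha
  rw [Finset.card_eq_one]
  refine ⟨y - (↑u⁻¹ : R) * k, ?_⟩
  ext z
  simp only [Finset.mem_filter, Finset.mem_univ, true_and, Finset.mem_singleton]
  constructor
  · rintro rfl
    rw [← mul_assoc]; simp
  · rintro rfl
    rw [sub_sub_cancel, ← mul_assoc]; simp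

lemma sumV (f : V → ℕ) (h : V → ℕ) (e : ∀ d, f d = h d) : ∑ d, f d = ∑ d, h d :=
  Finset.sum_congr rfl (fun d _ => e d)

lemma good_odd (R : Type) [CommRing R] [Fintype R] [DecidableEq R] [Nontrivial R]
    (h2 : IsUnit (2 : R)) : Good (V × R) (Fintype.card R + 2) := by
  have h2' : IsUnit (-2 : R) := h2.neg
  have hne : (2 : R) ≠ 0 := h2.ne_zero
  apply good_sq (fun i => if i.1 = 0 then 1 else -1) (fun j => if j.2 = 0 then 0 else 1)
  · intro i
    by_cases h : i.1 = 0
    · simpa [h] using h2
    · simpa [h] using h2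
  · intro i j y
    rw [sumV _ (fun d => if d.1 = 0 then 1 else if d.2 = 0 then Fintype.card R else 0)]
    · have e1 : (Finset.univ : Finset V) = {(0, 0), (0, 1), (1, 0), (1, 1)} := by decide
      rw [e1, Finset.sum_insert (by decide), Finset.sum_insert (by decide),
        Finset.sum_insert (by decide), Finset.sum_singleton]
      have : (1 : ZMod 2) ≠ 0 := by decide
      simp [this]
      ring
    · rintro ⟨d1, d2⟩
      have z2 : ∀ a b : ZMod 2, b ≠ 0 → (a + b = 0 ↔ a ≠ 0) := by decide
      by_cases hd : d1 = 0
      · subst hd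
        simp only [Prod.fst_add, add_zero, if_true]
        apply count_unit
        by_cases h : i.1 = 0
        · simp only [h, if_true]; rw [one_add_one_eq_two]; exact h2
        · simp only [h, if_false]
          have : (-1 + -1 : R) = -2 := by ring
          rw [this]; exact h2'
      · have e0 : ((if i.1 = 0 then (1 : R) else -1) + if i.1 + d1 = 0 then 1 else -1) = 0 := by
          by_cases h : i.1 = 0 <;> simp [z2 _ _ hd, h]
          simp [hd]
        simp only [Prod.fst_add, Prod.snd_add, hd, if_false, e0, zero_mul]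
        by_cases hd2 : d2 = 0
        · simp [hd2]
        · simp only [hd2, if_false, Finset.card_eq_zero, Finset.filter_eq_empty_iff]
          intro z _
          by_cases h : j.2 = 0
          · simp [h, hd2, hne.symm, hne]
          · simp [h, z2 _ _ hd2, hne.symm, hne]

lemma good_all (k : ℕ) (hk : 0 < k) : ∃ (α : Type) (_ : Finite α) (_ : Nonempty α), Good α k := by
  induction k using Nat.strong_induction_on with
  | _ k ih =>
    rcases Nat.even_or_odd' k with ⟨m, rfl | rfl⟩
    · obtain ⟨α, _, _, h⟩ := ih m (by omega) (by omega)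
      exact ⟨(V × ZMod 3) × α, inferInstance, inferInstance, good_prod good_two h⟩
    · rcases m with _ | _ | m
      · exact ⟨Unit, inferInstance, inferInstance, good_one⟩
      · exact ⟨_, inferInstance, inferInstance, good_three⟩
      · haveI : Fact (1 < 2 * m + 3) := ⟨by omega⟩
        have h2 : IsUnit (2 : ZMod (2 * m + 3)) := by
          refine IsUnit.of_mul_eq_one ((m : ZMod (2 * m + 3)) + 2) ?_
          have := ZMod.natCast_self (2 * m + 3)
          push_cast at this
          linear_combination this
        have := good_odd (ZMod (2 * m + 3)) h2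
        rw [ZMod.card] at this
        exact ⟨_, inferInstance, inferInstance, this⟩

end Pool.Agent.H.MP_510a26_co
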